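import Mathlib

/-!
# Noncrossing parking functions and systems of parameters: definitions

The definitions below are written for an arbitrary finite group `W` with a linear action on
`V = ℂ^N` (coordinates `x_1, …, x_N`), exactly as in the problem; they are then used for
`W = S_{m+1}` with its reflection representation.
-/

namespace Pool.Agent.Hhelper36.Park

open MvPolynomial

section General

variable {N : ℕ} {W : Type} [Group W] (ρ : Representation ℂ W (Fin N → ℂ))

/-- The fixed space `V^w`. -/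
def fixedSpace (w : W) : Submodule ℂ (Fin N → ℂ) := LinearMap.ker (ρ w - LinearMap.id)

/-- Reflections: elements whose fixed space is a hyperplane. -/
def IsRefl (t : W) : Prop := Module.finrank ℂ (fixedSpace ρ t) + 1 = N

/-- The reflection length `ℓ_T`. -/
noncomputable def reflLength (w : W) : ℕ :=
  sInf {l | ∃ L : List W, L.length = l ∧ (∀ t ∈ L, IsRefl ρ t) ∧ L.prod = w}

/-- The absolute order `u ≤_T w`. -/
def AbsLE (u w : W) : Prop := reflLength ρ u + reflLength ρ (u⁻¹ * w) = reflLength ρ w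

/-- The pointwise stabiliser `W_X`. -/
def ptStab (X : Submodule ℂ (Fin N → ℂ)) : Subgroup W where
  carrier := {w | ∀ x ∈ X, ρ w x = x}
  mul_mem' := by
    intro a b ha hb x hx
    rw [map_mul, Module.End.mul_apply, hb x hx, ha x hx]
  one_mem' := by
    intro x _
    simp
  inv_mem' := by
    intro a ha x hx
    have h : ρ (a⁻¹) (ρ a x) = x := by
      rw [← Module.End.mul_apply, ← map_mul]; simp
    rw [ha x hx] at h
    exact h

/-- `w_1 ≤_T ⋯ ≤_T w_k` in `NC(W) = [1, c]`. -/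
structure IsNCChain (c : W) {k : ℕ} (u : Fin k → W) : Prop where
  mono : ∀ i j, i ≤ j → AbsLE ρ (u i) (u j)
  le_c : ∀ i, AbsLE ρ (u i) c

/-- The tuple `(w_0, …, w_k) = (w_1, w_1⁻¹ w_2, …, w_{k-1}⁻¹ w_k, w_k⁻¹ c)` attached to
`w_1 ≤ ⋯ ≤ w_k`. -/
def factors (c : W) {k : ℕ} (u : Fin k → W) : Fin (k + 1) → W := fun i =>
  ((Fin.cons 1 (Fin.snoc u c) : Fin (k + 2) → W) i.castSucc)⁻¹ *
    (Fin.cons 1 (Fin.snoc u c) : Fin (k + 2) → W) i.succ

/-- The rotation `(w_0, …, w_k) ↦ (a w_0 a⁻¹, a, w_1, …, w_{k-1})`, `a = c w_k c⁻¹`. -/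
def rotate (c : W) {k : ℕ} (w : Fin (k + 1) → W) : Fin (k + 1) → W := fun i =>
  if i.val = 0 then (c * w (Fin.last k) * c⁻¹) * w 0 * (c * w (Fin.last k) * c⁻¹)⁻¹
  else if i.val = 1 then c * w (Fin.last k) * c⁻¹
  else w (i - 1)

/-- The class `[w, X_1 ≤ ⋯ ≤ X_k]`, `X_i = V^{u_i}`, encoded by the coset `w W_{X_1}` and
the flats. -/
def cls {k : ℕ} [NeZero k] (w : W) (u : Fin k → W) :
    Set W × (Fin k → Submodule ℂ (Fin N → ℂ)) :=
  ((w * ·) '' (ptStab ρ (fixedSpace ρ (u 0)) : Set W), fun i => fixedSpace ρ (u i))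

/-- `Park^{NC}_W(k)`. -/
def ParkNC (c : W) (k : ℕ) [NeZero k] : Set (Set W × (Fin k → Submodule ℂ (Fin N → ℂ))) :=
  {p | ∃ w : W, ∃ u : Fin k → W, IsNCChain ρ c u ∧ p = cls ρ w u}

/-- The polynomial map `V → V` with components `θ_i`. -/
noncomputable def polyMap (θ : Fin N → MvPolynomial (Fin N) ℂ) (v : Fin N → ℂ) : Fin N → ℂ :=
  fun i => eval v (θ i)

/-- `θ_1, …, θ_N` is a homogeneous system of parameters of degree `D` carrying `V^*`: the linear
map `x_i ↦ θ_i` is `W`-equivariant. -/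
structure IsCarryingHsop (D : ℕ) (θ : Fin N → MvPolynomial (Fin N) ℂ) : Prop where
  homogeneous : ∀ i, (θ i).IsHomogeneous D
  sop : Module.Finite ℂ (MvPolynomial (Fin N) ℂ ⧸ Ideal.span (Set.range θ))
  equivariant : ∀ (w : W) (v : Fin N → ℂ), polyMap θ (ρ w v) = ρ w (polyMap θ v)

/-- `V^Θ`, the zero set of the ideal `(θ_1 - x_1, …, θ_N - x_N)`. -/
def zeroSet (θ : Fin N → MvPolynomial (Fin N) ℂ) : Set (Fin N → ℂ) :=
  {v | ∀ i, eval v (θ i - X i) = 0}

/-- (i): `V^Θ` consists of `D^N` distinct points, each of multiplicity one. -/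
def IsReducedOfCard (D : ℕ) (θ : Fin N → MvPolynomial (Fin N) ℂ) : Prop :=
  (zeroSet θ).ncard = D ^ N ∧
    (Ideal.span (Set.range fun i => θ i - (X i : MvPolynomial (Fin N) ℂ))).IsRadical

/-- (ii): there is a `W × ℤ_{kh}`-equivariant bijection `V^Θ → Park^{NC}_W(k)`.  On `V^Θ` the
generator `g` acts by `v ↦ ω v`; on the parking side `W` acts by `v.[w, X] = [v w, X]` and
`g.[w, X] = [w u_k c⁻¹, g.X]`. -/
def HasEquivariantBijection (c : W) (k : ℕ) [NeZero k] (ω : ℂ)
    (θ : Fin N → MvPolynomial (Fin N) ℂ) : Prop :=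
  ∃ f : (Fin N → ℂ) → Set W × (Fin k → Submodule ℂ (Fin N → ℂ)),
    Set.BijOn f (zeroSet θ) (ParkNC ρ c k) ∧
    (∀ v ∈ zeroSet θ, ∀ x w : W, ∀ u : Fin k → W, IsNCChain ρ c u → f v = cls ρ w u →
      f (ρ x v) = cls ρ (x * w) u) ∧
    (∀ v ∈ zeroSet θ, ∀ w : W, ∀ u : Fin k → W, IsNCChain ρ c u → f v = cls ρ w u →
      ∃ u' : Fin k → W, IsNCChain ρ c u' ∧ factors c u' = rotate c (factors c u) ∧
        f (ω • v) = cls ρ (w * u ⊤ * c⁻¹) u')

end General

section TypeA

/-- The point `(v_1, …, v_m, -v_1 - ⋯ - v_m)` of `{x ∈ ℂ^{m+1} : ∑ x_i = 0}`. -/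
def extend {m : ℕ} (v : Fin m → ℂ) : Fin (m + 1) → ℂ := Fin.snoc v (-∑ i, v i)

theorem sum_extend {m : ℕ} (v : Fin m → ℂ) : ∑ i, extend v i = 0 := by
  simp [extend, Fin.sum_univ_castSucc]

theorem extend_castSucc {m : ℕ} (v : Fin m → ℂ) (i : Fin m) : extend v i.castSucc = v i := by
  simp [extend]

theorem extend_last {m : ℕ} (v : Fin m → ℂ) : extend v (Fin.last m) = -∑ i, v i := by
  simp [extend]

theorem extend_restrict {m : ℕ} (x : Fin (m + 1) → ℂ) (hx : ∑ i, x i = 0) :
    extend (fun i : Fin m => x i.castSucc) = x := by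
  ext i
  refine Fin.lastCases ?_ (fun j => ?_) i
  · rw [extend_last]
    rw [Fin.sum_univ_castSucc] at hx
    linear_combination -hx
  · rw [extend_castSucc]

theorem extend_add {m : ℕ} (v w : Fin m → ℂ) : extend (v + w) = extend v + extend w := by
  ext i
  refine Fin.lastCases ?_ (fun j => ?_) i
  · simp only [extend_last, Pi.add_apply, Finset.sum_add_distrib]
    ring
  · simp only [extend_castSucc, Pi.add_apply]

theorem extend_smul {m : ℕ} (a : ℂ) (v : Fin m → ℂ) : extend (a • v) = a • extend v := by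
  ext i
  refine Fin.lastCases ?_ (fun j => ?_) i
  · simp only [extend_last, Pi.smul_apply, smul_eq_mul, ← Finset.mul_sum]
    ring
  · simp only [extend_castSucc, Pi.smul_apply]

/-- The reflection representation of `S_{m+1}` on `{x ∈ ℂ^{m+1} : ∑ x_i = 0} = ℂ^m`, in the
coordinates `x_1, …, x_m`. -/
def reflRep (m : ℕ) : Representation ℂ (Equiv.Perm (Fin (m + 1))) (Fin m → ℂ) where
  toFun σ :=
    { toFun := fun v i => extend v (σ⁻¹ i.castSucc)
      map_add' := by
        intro v w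
        ext i
        rw [extend_add]; rfl
      map_smul' := by
        intro a v
        ext i
        rw [extend_smul]; rfl }
  map_one' := by
    refine LinearMap.ext fun v => funext fun i => ?_
    simp [extend_castSucc]
  map_mul' := by
    intro σ τ
    refine LinearMap.ext fun v => funext fun i => ?_
    have h : extend (fun j : Fin m => extend v (τ⁻¹ j.castSucc)) = fun j => extend v (τ⁻¹ j) := by
      have := extend_restrict (fun j => extend v (τ⁻¹ j)) (by
        rw [← sum_extend v]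
        exact Equiv.sum_comp τ⁻¹ (extend v))
      exact this
    change extend v ((σ * τ)⁻¹ i.castSucc) =
      extend (fun j : Fin m => extend v (τ⁻¹ j.castSucc)) (σ⁻¹ i.castSucc)
    rw [h, mul_inv_rev]
    rfl

theorem extend_reflRep {m : ℕ} (σ : Equiv.Perm (Fin (m + 1))) (v : Fin m → ℂ)
    (i : Fin (m + 1)) : extend (reflRep m σ v) i = extend v (σ⁻¹ i) := by
  have := extend_restrict (fun j => extend v (σ⁻¹ j)) (by
    rw [← sum_extend v]
    exact Equiv.sum_comp σ⁻¹ (extend v))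
  exact congrFun this i

end TypeA

end Pool.Agent.Hhelper36.Park
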