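import Mathlib
import Pool.Agent.Hhelper36.Park.Defs

/-!
# Bezout-type count of the fixed points of a homogeneous polynomial self-map

Main results, for `θ_1, …, θ_N` homogeneous of degree `D ≥ 2` in `N` variables over `ℂ` whose only
common zero is `0`:
* `finite_quotient_of_zero`, `zero_of_finite_quotient`: the condition on zeros is the finiteness of
  `ℂ[x] / (θ)`;
* `isRadical_of_nondegenerate`, `nondegenerate_of_isRadical`: the ideal `(θ_i - x_i)` is radical
  iff all fixed points are nondegenerate;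
* `ncard_zeroSet`: in that case there are exactly `D ^ N` fixed points;
* `ncard_zeroSet_inter`: and `D ^ dim U` of them in every invariant subspace `U`.
-/

open MvPolynomial

namespace Pool.Agent.Hhelper36.Park

namespace Bezout

theorem finrank_restrictTotalDegree (N T : ℕ) :
    Module.finrank ℂ (restrictTotalDegree (Fin N) ℂ T) = (T + N).choose N := by
  have h0 := Module.finrank_eq_nat_card_basis
    (basisRestrictSupport ℂ ({ n | (n.sum fun _ e => e) ≤ T } : Set (Fin N →₀ ℕ)))
  refine h0.trans ?_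
  have e : ({ n | (n.sum fun _ e => e) ≤ T } : Set (Fin N →₀ ℕ)) ≃
      {P : Fin (N + 1) → ℕ // ∑ i, P i = T} :=
    { toFun := fun n => ⟨Fin.cons (T - n.1.sum fun _ e => e) n.1, by
        have := n.2
        simp only [Set.mem_ofPred_eq] at this
        rw [Fin.sum_univ_succ]
        simp only [Fin.cons_zero, Fin.cons_succ]
        rw [← Finsupp.sum_fintype n.1 (fun _ e => e) (by simp)]
        omega⟩
      invFun := fun P => ⟨Finsupp.equivFunOnFinite.symm (fun i => P.1 i.succ), by
        have := P.2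
        rw [Fin.sum_univ_succ] at this
        simp only [Set.mem_ofPred_eq]
        rw [Finsupp.sum_fintype _ _ (by simp)]
        simp only [Finsupp.equivFunOnFinite_symm_apply_apply]
        omega⟩
      left_inv := by
        intro n
        ext i
        simp
      right_inv := by
        intro P
        apply Subtype.ext
        funext i
        refine Fin.cases ?_ (fun j => ?_) i
        · have := P.2
          rw [Fin.sum_univ_succ] at this
          simp only [Fin.cons_zero]
          rw [Finsupp.sum_fintype _ _ (by simp)]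
          simp only [Finsupp.equivFunOnFinite_symm_apply_apply]
          omega
        · simp }
  rw [Nat.card_congr e, Nat.card_congr (Sym.equivNatSumOfFintype (Fin (N + 1)) T).symm,
    Nat.card_eq_fintype_card, Sym.card_sym_eq_choose]
  simp only [Fintype.card_fin]
  have : N + 1 + T - 1 = T + N := by omega
  rw [this]
  exact Nat.choose_symm_add

theorem numeric (N D E K M : ℕ)
    (h1 : ∀ s, M * (s + N).choose N ≤ (s * D + E + N).choose N)
    (h2 : ∀ s, (s * D + N).choose N ≤ M * (s + K + N).choose N) : M = D ^ N := by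
  have lo : ∀ t : ℕ, (t + 1) ^ N ≤ (t + N).choose N * N.factorial := by
    intro t
    have := Nat.pow_sub_le_descFactorial (t + N) N
    rw [Nat.descFactorial_eq_factorial_mul_choose] at this
    have h : t + N + 1 - N = t + 1 := by omega
    rw [h] at this
    linarith
  have up : ∀ t : ℕ, (t + N).choose N * N.factorial ≤ (t + N) ^ N := by
    intro t
    have := Nat.descFactorial_le_pow (t + N) N
    rw [Nat.descFactorial_eq_factorial_mul_choose] at this
    linarith
  have g1 : ∀ s : ℕ, M * (s + 1) ^ N ≤ (s * D + E + N) ^ N := fun s =>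
    calc M * (s + 1) ^ N ≤ M * ((s + N).choose N * N.factorial) := Nat.mul_le_mul_left _ (lo s)
      _ = (M * (s + N).choose N) * N.factorial := by ring
      _ ≤ ((s * D + E + N).choose N) * N.factorial := Nat.mul_le_mul_right _ (h1 s)
      _ ≤ _ := up _
  have g2 : ∀ s : ℕ, (s * D + 1) ^ N ≤ M * (s + K + N) ^ N := fun s =>
    calc (s * D + 1) ^ N ≤ ((s * D + N).choose N * N.factorial) := lo _
      _ ≤ (M * (s + K + N).choose N) * N.factorial := Nat.mul_le_mul_right _ (h2 s)
      _ = M * ((s + K + N).choose N * N.factorial) := by ring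
      _ ≤ _ := Nat.mul_le_mul_left _ (up _)
  have lim : ∀ a b c d : ℝ, c ≠ 0 →
      Filter.Tendsto (fun s : ℕ => ((s * a + b) / (s * c + d)) ^ N) Filter.atTop
        (nhds ((a / c) ^ N)) := by
    intro a b c d hc
    refine Filter.Tendsto.pow ?_ N
    have h0 : Filter.Tendsto (fun s : ℕ => (a + b * ((s : ℝ))⁻¹) / (c + d * ((s : ℝ))⁻¹))
        Filter.atTop (nhds ((a + b * 0) / (c + d * 0))) := by
      refine Filter.Tendsto.div ?_ ?_ (by simpa using hc)
      · exact tendsto_const_nhds.add (tendsto_const_nhds.mul tendsto_inv_atTop_nhds_zero_nat)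
      · exact tendsto_const_nhds.add (tendsto_const_nhds.mul tendsto_inv_atTop_nhds_zero_nat)
    simp only [mul_zero, add_zero] at h0
    refine h0.congr' ?_
    filter_upwards [Filter.eventually_gt_atTop 0] with s hs
    have hs' : (s : ℝ) ≠ 0 := by positivity
    have e1 : a + b * ((s : ℝ))⁻¹ = (s * a + b) / s := by field_simp
    have e2 : c + d * ((s : ℝ))⁻¹ = (s * c + d) / s := by field_simp
    rw [e1, e2, div_div_div_cancel_right₀ hs']
  apply le_antisymm
  · have h3 : ∀ s : ℕ, (M : ℝ) ≤ ((s * (D : ℝ) + (E + N : ℝ)) / (s * 1 + 1)) ^ N := by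
      intro s
      rw [div_pow, le_div_iff₀ (by positivity)]
      have := g1 s
      have h' : ((M * (s + 1) ^ N : ℕ) : ℝ) ≤ (((s * D + E + N) ^ N : ℕ) : ℝ) := by
        exact_mod_cast this
      push_cast at h'
      rw [mul_one, ← add_assoc]
      exact h'
    have := ge_of_tendsto' (lim D (E + N) 1 1 one_ne_zero) h3
    rw [div_one] at this
    exact_mod_cast this
  · have h3 : ∀ s : ℕ, ((s * (D : ℝ) + 1) / (s * 1 + (K + N + 1))) ^ N ≤ (M : ℝ) := by
      intro s
      rw [div_pow, div_le_iff₀ (by positivity)]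
      have := g2 s
      have h' : (((s * D + 1) ^ N : ℕ) : ℝ) ≤ ((M * (s + K + N) ^ N : ℕ) : ℝ) := by
        exact_mod_cast this
      push_cast at h'
      refine h'.trans (mul_le_mul_of_nonneg_left (pow_le_pow_left₀ (by positivity) ?_ N)
        (by positivity))
      linarith
    have := le_of_tendsto' (lim D 1 1 (K + N + 1) one_ne_zero) h3
    rw [div_one] at this
    exact_mod_cast this

variable {N : ℕ}

section
attribute [local instance] MvPolynomial.gradedAlgebra

theorem homogeneousComponent_mul_of_homogeneous {D T : ℕ} (hDT : D ≤ T)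
    (g θ : MvPolynomial (Fin N) ℂ) (hθ : θ.IsHomogeneous D) :
    homogeneousComponent T (g * θ) = homogeneousComponent (T - D) g * θ := by
  have := DirectSum.coe_decompose_mul_of_right_mem_of_le (homogeneousSubmodule (Fin N) ℂ)
    (a := g) (b := θ) (i := D) (n := T) hθ hDT
  rw [← decomposition.decompose'_apply, ← decomposition.decompose'_apply]
  exact this

end

theorem exists_deg (θ : Fin N → MvPolynomial (Fin N) ℂ)
    (h0 : ∀ v, (∀ i, eval v (θ i) = 0) → v = 0) :
    ∃ M0, ∀ β : Fin N →₀ ℕ, M0 ≤ β.degree →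
      monomial β (1 : ℂ) ∈ Ideal.span (Set.range θ) := by
  have h1 : ∀ i : Fin N, ∃ k : ℕ, (X i : MvPolynomial (Fin N) ℂ) ^ k ∈
      Ideal.span (Set.range θ) := by
    intro i
    have : (X i : MvPolynomial (Fin N) ℂ) ∈ (Ideal.span (Set.range θ)).radical := by
      rw [← vanishingIdeal_zeroLocus_eq_radical (K := ℂ)]
      intro v hv
      have hv' : v = 0 := by
        apply h0
        intro j
        have := hv (θ j) (Ideal.subset_span ⟨j, rfl⟩)
        rwa [← coe_aeval_eq_eval]
      rw [hv']
      simp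
    exact this
  choose k hk using h1
  refine ⟨∑ i, k i + 1, fun β hβ => ?_⟩
  have h2 : ∃ i, k i ≤ β i := by
    by_contra hcon
    push Not at hcon
    have : β.degree ≤ ∑ i, k i := by
      rw [Finsupp.degree_eq_sum]
      exact Finset.sum_le_sum fun i _ => (hcon i).le
    omega
  obtain ⟨i, hi⟩ := h2
  have h3 : monomial β (1 : ℂ) = monomial (β - Finsupp.single i (k i)) (1 : ℂ) * X i ^ k i := by
    rw [X_pow_eq_monomial, monomial_mul, one_mul]
    congr 1
    rw [tsub_add_cancel_of_le]
    intro j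
    by_cases hj : j = i
    · subst hj
      simpa using hi
    · simp [Ne.symm hj]
  rw [h3]
  exact Ideal.mul_mem_left _ _ (hk i)

theorem exists_graded_rep {D T : ℕ} (θ : Fin N → MvPolynomial (Fin N) ℂ)
    (hhom : ∀ i, (θ i).IsHomogeneous D) (hDT : D ≤ T) (β : Fin N →₀ ℕ) (hβ : β.degree = T)
    (hmem : monomial β (1 : ℂ) ∈ Ideal.span (Set.range θ)) :
    ∃ g : Fin N → MvPolynomial (Fin N) ℂ, (∀ i, (g i).totalDegree ≤ T - D) ∧
      monomial β (1 : ℂ) = ∑ i, g i * θ i := by
  obtain ⟨c, hc⟩ := Ideal.mem_span_range_iff_exists_fun.mp hmem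
  refine ⟨fun i => homogeneousComponent (T - D) (c i), fun i =>
    (homogeneousComponent_isHomogeneous _ _).totalDegree_le, ?_⟩
  have h1 : homogeneousComponent T (monomial β (1 : ℂ)) = monomial β 1 :=
    homogeneousComponent_eq_self (isHomogeneous_monomial _ hβ)
  rw [← h1, ← hc, map_sum]
  exact Finset.sum_congr rfl fun i _ =>
    homogeneousComponent_mul_of_homogeneous hDT _ _ (hhom i)

/-- The algebra map `X_i ↦ φ_i = θ_i - X_i`. -/
noncomputable def Phi (θ : Fin N → MvPolynomial (Fin N) ℂ) :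
    MvPolynomial (Fin N) ℂ →ₐ[ℂ] MvPolynomial (Fin N) ℂ := aeval (fun i => θ i - X i)

theorem Phi_X (θ : Fin N → MvPolynomial (Fin N) ℂ) (i : Fin N) : Phi θ (X i) = θ i - X i := by
  simp [Phi]

/-- `W_s = Φ(B_{≤ s}) R_{≤ M0}`. -/
noncomputable def WW (θ : Fin N → MvPolynomial (Fin N) ℂ) (M0 s : ℕ) :
    Submodule ℂ (MvPolynomial (Fin N) ℂ) :=
  (restrictTotalDegree (Fin N) ℂ s).map (Phi θ).toLinearMap * restrictTotalDegree (Fin N) ℂ M0

theorem WW_mono (θ : Fin N → MvPolynomial (Fin N) ℂ) (M0 : ℕ) {s t : ℕ} (h : s ≤ t) :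
    WW θ M0 s ≤ WW θ M0 t := by
  refine mul_le_mul' (Submodule.map_mono ?_) le_rfl
  intro p hp
  rw [mem_restrictTotalDegree] at hp ⊢
  exact hp.trans h

theorem phi_mul_mem_WW (θ : Fin N → MvPolynomial (Fin N) ℂ) (M0 s : ℕ) (i : Fin N)
    {p : MvPolynomial (Fin N) ℂ} (hp : p ∈ WW θ M0 s) : (θ i - X i) * p ∈ WW θ M0 (s + 1) := by
  unfold WW at hp ⊢
  refine Submodule.mul_induction_on hp ?_ ?_
  · rintro _ ⟨b, hb, rfl⟩ q hq
    rw [← mul_assoc, ← Phi_X]
    refine Submodule.mul_mem_mul ⟨X i * b, ?_, ?_⟩ hq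
    · rw [SetLike.mem_coe, mem_restrictTotalDegree] at hb ⊢
      refine (totalDegree_mul _ _).trans ?_
      rw [totalDegree_X]
      omega
    · simp
  · intro x y hx hy
    rw [mul_add]
    exact Submodule.add_mem _ hx hy

theorem totalDegree_le_mem_WW {D M0 : ℕ} (hD : 2 ≤ D) (θ : Fin N → MvPolynomial (Fin N) ℂ)
    (hhom : ∀ i, (θ i).IsHomogeneous D) (hM0 : D ≤ M0)
    (hM : ∀ β : Fin N →₀ ℕ, M0 ≤ β.degree → monomial β (1 : ℂ) ∈ Ideal.span (Set.range θ))
    (T : ℕ) : restrictTotalDegree (Fin N) ℂ T ≤ WW θ M0 (T / D) := by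
  induction T using Nat.strong_induction_on with
  | _ T ih =>
    have key : ∀ β : Fin N →₀ ℕ, β.degree ≤ T → monomial β (1 : ℂ) ∈ WW θ M0 (T / D) := by
      intro β hβ
      rcases lt_or_eq_of_le hβ with hlt | heq
      · refine WW_mono θ M0 (Nat.div_le_div_right hlt.le) (ih _ hlt ?_)
        rw [mem_restrictTotalDegree]
        exact (isHomogeneous_monomial _ rfl).totalDegree_le
      · by_cases hT : T ≤ M0
        · refine WW_mono θ M0 (Nat.zero_le _) ?_
          rw [← one_mul (monomial β (1 : ℂ))]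
          refine Submodule.mul_mem_mul ⟨1, ?_, by simp⟩ ?_
          · rw [SetLike.mem_coe, mem_restrictTotalDegree]
            simp
          · rw [mem_restrictTotalDegree]
            exact (isHomogeneous_monomial _ rfl).totalDegree_le.trans (by omega)
        · obtain ⟨g, hg, hgs⟩ := exists_graded_rep (T := T) θ hhom (by omega) β heq
            (hM β (by omega))
          have h1 : monomial β (1 : ℂ) = ∑ i, ((θ i - X i) * g i + X i * g i) := by
            rw [hgs]
            exact Finset.sum_congr rfl fun i _ => by ring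
          rw [h1]
          refine Submodule.sum_mem _ fun i _ => Submodule.add_mem _ ?_ ?_
          · have h2 : g i ∈ WW θ M0 ((T - D) / D) :=
              ih (T - D) (by omega) ((mem_restrictTotalDegree _ _ _).mpr (hg i))
            refine WW_mono θ M0 ?_ (phi_mul_mem_WW θ M0 _ i h2)
            have : (T - D) / D + 1 = T / D := by
              rw [← Nat.add_div_right _ (by omega), Nat.sub_add_cancel (by omega)]
            omega
          · refine WW_mono θ M0 (Nat.div_le_div_right (c := D) (by omega : T - 1 ≤ T))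
              (ih (T - 1) (by omega) ((mem_restrictTotalDegree _ _ _).mpr ?_))
            refine (totalDegree_mul _ _).trans ?_
            rw [totalDegree_X]
            have := hg i
            omega
    intro p hp
    rw [mem_restrictTotalDegree] at hp
    rw [p.as_sum]
    refine Submodule.sum_mem _ fun β hβ => ?_
    have h1 : monomial β (coeff β p) = (coeff β p) • monomial β (1 : ℂ) := by
      rw [smul_monomial, smul_eq_mul, mul_one]
    rw [h1]
    refine Submodule.smul_mem _ _ (key β ?_)
    exact (le_totalDegree hβ).trans hp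

/-- Interpolation: polynomials `e_w`, `w ∈ Z`, with `e_w(v) = δ_{wv}` for `v, w ∈ Z`. -/
theorem exists_interp (Z : Finset (Fin N → ℂ)) :
    ∃ e : (Fin N → ℂ) → MvPolynomial (Fin N) ℂ, ∀ w ∈ Z, ∀ v ∈ Z,
      eval v (e w) = if v = w then 1 else 0 := by
  have h1 : ∀ w v : Fin N → ℂ, ∃ p : MvPolynomial (Fin N) ℂ, v ≠ w →
      eval v p = 0 ∧ eval w p = 1 := by
    intro w v
    by_cases h : v = w
    · exact ⟨0, fun h' => absurd h h'⟩
    · obtain ⟨k, hk⟩ := Function.ne_iff.mp h
      refine ⟨C ((w k - v k)⁻¹) * (X k - C (v k)), fun _ => ⟨by simp, ?_⟩⟩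
      simp only [map_mul, eval_C, map_sub, eval_X]
      exact inv_mul_cancel₀ (sub_ne_zero.mpr (Ne.symm hk))
  choose p hp using h1
  classical
  refine ⟨fun w => ∏ v ∈ Z.erase w, p w v, fun w hw v hv => ?_⟩
  rw [map_prod]
  split_ifs with h
  · subst h
    refine Finset.prod_eq_one fun u hu => ?_
    exact (hp v u (Finset.ne_of_mem_erase hu)).2
  · refine Finset.prod_eq_zero (Finset.mem_erase.mpr ⟨h, hv⟩) ?_
    exact (hp w v h).1

theorem finite_zeros_of_finite_quotient (I : Ideal (MvPolynomial (Fin N) ℂ))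
    [Module.Finite ℂ (MvPolynomial (Fin N) ℂ ⧸ I)] :
    {v : Fin N → ℂ | ∀ p ∈ I, eval v p = 0}.Finite := by
  have hint : ∀ i : Fin N, IsIntegral ℂ (Ideal.Quotient.mk I (X i)) := fun i =>
    Algebra.IsIntegral.isIntegral _
  have hfin : (Set.pi Set.univ fun i : Fin N =>
      {z : ℂ | (minpoly ℂ (Ideal.Quotient.mk I (X i))).IsRoot z}).Finite := by
    refine Set.Finite.pi fun i => ?_
    exact Polynomial.finite_setOfPred_isRoot (minpoly.ne_zero (hint i))
  refine hfin.subset fun v hv i _ => ?_
  have h1 : Polynomial.aeval (X i : MvPolynomial (Fin N) ℂ)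
      (minpoly ℂ (Ideal.Quotient.mk I (X i))) ∈ I := by
    rw [← Ideal.Quotient.eq_zero_iff_mem]
    have h2 := minpoly.aeval ℂ (Ideal.Quotient.mk I (X i))
    rw [← h2]
    exact (Polynomial.aeval_algHom_apply (Ideal.Quotient.mkₐ ℂ I) (X i) _).symm
  have h3 := hv _ h1
  have h4 : eval v (Polynomial.aeval (X i : MvPolynomial (Fin N) ℂ)
      (minpoly ℂ (Ideal.Quotient.mk I (X i)))) =
      Polynomial.aeval (v i) (minpoly ℂ (Ideal.Quotient.mk I (X i))) := by
    have := Polynomial.aeval_algHom_apply (MvPolynomial.aeval v : MvPolynomial (Fin N) ℂ →ₐ[ℂ] ℂ)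
      (X i) (minpoly ℂ (Ideal.Quotient.mk I (X i)))
    rw [aeval_X] at this
    rw [this]
    rfl
  rw [h4] at h3
  simpa [Polynomial.IsRoot, Polynomial.coe_aeval_eq_eval] using h3

theorem finite_quotient_of_rep (I : Ideal (MvPolynomial (Fin N) ℂ)) (M0 : ℕ)
    (h : ∀ r : MvPolynomial (Fin N) ℂ, ∃ q : MvPolynomial (Fin N) ℂ, q.totalDegree ≤ M0 ∧
      r - q ∈ I) : Module.Finite ℂ (MvPolynomial (Fin N) ℂ ⧸ I) := by
  refine Module.Finite.of_surjective
    ((Ideal.Quotient.mkₐ ℂ I).toLinearMap.comp (restrictTotalDegree (Fin N) ℂ M0).subtype) ?_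
  intro x
  obtain ⟨r, rfl⟩ := Ideal.Quotient.mk_surjective x
  obtain ⟨q, hq, hr⟩ := h r
  refine ⟨⟨q, (mem_restrictTotalDegree _ _ _).mpr hq⟩, ?_⟩
  have := (Ideal.Quotient.eq.mpr hr)
  exact this.symm

theorem eval_smul_of_homogeneous {D : ℕ} {p : MvPolynomial (Fin N) ℂ} (hp : p.IsHomogeneous D)
    (c : ℂ) (v : Fin N → ℂ) : eval (c • v) p = c ^ D * eval v p := by
  rw [eval_eq, eval_eq, Finset.mul_sum]
  refine Finset.sum_congr rfl fun d hd => ?_
  have h1 : d.degree = D := by
    by_contra hne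
    exact (mem_support_iff.mp hd) (hp.coeff_eq_zero hne)
  have h2 : ∏ i ∈ d.support, (c • v) i ^ d i = c ^ D * ∏ i ∈ d.support, v i ^ d i := by
    simp only [Pi.smul_apply, smul_eq_mul, mul_pow]
    rw [Finset.prod_mul_distrib, Finset.prod_pow_eq_pow_sum]
    congr 2
  rw [h2]
  ring

end Bezout

namespace Bezout

variable {N : ℕ}

theorem Phi_sub_mem (θ : Fin N → MvPolynomial (Fin N) ℂ) (b : MvPolynomial (Fin N) ℂ) :
    Phi θ b - C (eval 0 b) ∈
      Ideal.span (Set.range fun i => θ i - (X i : MvPolynomial (Fin N) ℂ)) := by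
  induction b using MvPolynomial.induction_on with
  | C a => simp [Phi]
  | add p q hp hq =>
    have : Phi θ (p + q) - C (eval 0 (p + q)) =
        (Phi θ p - C (eval 0 p)) + (Phi θ q - C (eval 0 q)) := by
      rw [map_add, map_add, map_add]; ring
    rw [this]
    exact Ideal.add_mem _ hp hq
  | mul_X p i _ =>
    rw [map_mul, Phi_X, map_mul, eval_X]
    simp only [Pi.zero_apply, mul_zero, map_zero, sub_zero]
    exact Ideal.mul_mem_left _ _ (Ideal.subset_span ⟨i, rfl⟩)

theorem exists_M0 {D : ℕ} (hD : 2 ≤ D) (θ : Fin N → MvPolynomial (Fin N) ℂ)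
    (hhom : ∀ i, (θ i).IsHomogeneous D) (h0 : ∀ v, (∀ i, eval v (θ i) = 0) → v = 0) :
    ∃ M0, ∀ T, restrictTotalDegree (Fin N) ℂ T ≤ WW θ M0 (T / D) := by
  obtain ⟨M0, hM0⟩ := exists_deg θ h0
  refine ⟨max D M0, fun T => totalDegree_le_mem_WW hD θ hhom (le_max_left _ _) ?_ T⟩
  intro β hβ
  exact hM0 β ((le_max_right _ _).trans hβ)

theorem finite_quotient_phi {D : ℕ} (hD : 2 ≤ D) (θ : Fin N → MvPolynomial (Fin N) ℂ)
    (hhom : ∀ i, (θ i).IsHomogeneous D) (h0 : ∀ v, (∀ i, eval v (θ i) = 0) → v = 0) :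
    Module.Finite ℂ (MvPolynomial (Fin N) ℂ ⧸
      Ideal.span (Set.range fun i => θ i - (X i : MvPolynomial (Fin N) ℂ))) := by
  obtain ⟨M0, hM0⟩ := exists_M0 hD θ hhom h0
  refine finite_quotient_of_rep _ M0 fun r => ?_
  have h1 : r ∈ WW θ M0 (r.totalDegree / D) :=
    hM0 _ ((mem_restrictTotalDegree _ _ _).mpr le_rfl)
  unfold WW at h1
  refine Submodule.mul_induction_on h1 ?_ ?_
  · rintro _ ⟨b, _, rfl⟩ p hp
    refine ⟨C (eval 0 b) * p, ?_, ?_⟩
    · rw [mem_restrictTotalDegree] at hp
      refine (totalDegree_mul _ _).trans ?_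
      rw [totalDegree_C]
      omega
    · have : (Phi θ).toLinearMap b * p - C (eval 0 b) * p = (Phi θ b - C (eval 0 b)) * p := by
        rw [AlgHom.toLinearMap_apply]; ring
      rw [this]
      exact Ideal.mul_mem_right _ _ (Phi_sub_mem θ b)
  · rintro x y ⟨p, hp, hxp⟩ ⟨q, hq, hyq⟩
    refine ⟨p + q, (totalDegree_add _ _).trans (max_le hp hq), ?_⟩
    have : x + y - (p + q) = (x - p) + (y - q) := by ring
    rw [this]
    exact Ideal.add_mem _ hxp hyq

theorem mem_zeroSet_iff (θ : Fin N → MvPolynomial (Fin N) ℂ) (v : Fin N → ℂ) :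
    v ∈ zeroSet θ ↔ ∀ p ∈ Ideal.span (Set.range fun i => θ i - (X i : MvPolynomial (Fin N) ℂ)),
      eval v p = 0 := by
  constructor
  · intro hv p hp
    have h1 : Ideal.span (Set.range fun i => θ i - (X i : MvPolynomial (Fin N) ℂ)) ≤
        RingHom.ker (eval v) := by
      rw [Ideal.span_le]
      rintro _ ⟨i, rfl⟩
      exact hv i
    exact h1 hp
  · intro h i
    exact h _ (Ideal.subset_span ⟨i, rfl⟩)

theorem finite_zeroSet {D : ℕ} (hD : 2 ≤ D) (θ : Fin N → MvPolynomial (Fin N) ℂ)
    (hhom : ∀ i, (θ i).IsHomogeneous D) (h0 : ∀ v, (∀ i, eval v (θ i) = 0) → v = 0) :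
    (zeroSet θ).Finite := by
  have := finite_quotient_phi hD θ hhom h0
  refine (finite_zeros_of_finite_quotient
    (Ideal.span (Set.range fun i => θ i - (X i : MvPolynomial (Fin N) ℂ)))).subset ?_
  intro v hv
  exact (mem_zeroSet_iff θ v).mp hv

theorem mem_radical_iff (θ : Fin N → MvPolynomial (Fin N) ℂ) (p : MvPolynomial (Fin N) ℂ) :
    p ∈ (Ideal.span (Set.range fun i => θ i - (X i : MvPolynomial (Fin N) ℂ))).radical ↔
      ∀ v ∈ zeroSet θ, eval v p = 0 := by
  rw [← vanishingIdeal_zeroLocus_eq_radical (K := ℂ)]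
  constructor
  · intro h v hv
    exact h v (fun q hq => (mem_zeroSet_iff θ v).mp hv q hq)
  · intro h v hv
    exact h v ((mem_zeroSet_iff θ v).mpr fun q hq => hv q hq)

theorem taylor (v : Fin N → ℂ) (f : MvPolynomial (Fin N) ℂ) :
    f - C (eval v f) - ∑ k, C (eval v (pderiv k f)) * (X k - C (v k)) ∈
      (RingHom.ker (eval v) : Ideal (MvPolynomial (Fin N) ℂ)) ^ 2 := by
  induction f using MvPolynomial.induction_on with
  | C a => simp
  | add p q hp hq =>
    have := Ideal.add_mem _ hp hq
    convert this using 1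
    simp only [map_add, add_mul, Finset.sum_add_distrib]
    ring
  | mul_X p l hp =>
    have h1 : ∑ k, C (eval v (pderiv k (p * X l))) * (X k - C (v k)) =
        C (eval v p) * (X l - C (v l)) +
          C (v l) * ∑ k, C (eval v (pderiv k p)) * (X k - C (v k)) := by
      have h2 : ∀ k, C (eval v (pderiv k (p * X l))) * (X k - C (v k)) =
          (if k = l then C (eval v p) * (X l - C (v l)) else 0) +
          C (v l) * (C (eval v (pderiv k p)) * (X k - C (v k))) := by
        intro k
        rw [pderiv_mul, pderiv_X]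
        by_cases hk : k = l
        · subst hk
          simp only [Pi.single_eq_same, mul_one, map_add, map_mul, eval_X, if_true]
          ring
        · simp only [Pi.single_apply, Ne.symm hk, if_false, mul_zero, map_mul, eval_X,
            add_zero, hk, zero_add]
          ring
      rw [Finset.sum_congr rfl fun k _ => h2 k, Finset.sum_add_distrib, ← Finset.mul_sum]
      simp
    rw [h1]
    have h3 : p * X l - C (eval v (p * X l)) - (C (eval v p) * (X l - C (v l)) +
          C (v l) * ∑ k, C (eval v (pderiv k p)) * (X k - C (v k))) =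
        (p - C (eval v p)) * (X l - C (v l)) +
        C (v l) * (p - C (eval v p) - ∑ k, C (eval v (pderiv k p)) * (X k - C (v k))) := by
      rw [map_mul, eval_X, map_mul]
      ring
    rw [h3]
    refine Ideal.add_mem _ ?_ (Ideal.mul_mem_left _ _ hp)
    rw [sq]
    refine Ideal.mul_mem_mul ?_ ?_
    · simp [RingHom.mem_ker]
    · simp [RingHom.mem_ker]

end Bezout

theorem finite_quotient_of_zero {N D : ℕ} (_hD : 1 ≤ D) (θ : Fin N → MvPolynomial (Fin N) ℂ)
    (_hhom : ∀ i, (θ i).IsHomogeneous D) (h0 : ∀ v, (∀ i, eval v (θ i) = 0) → v = 0) :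
    Module.Finite ℂ (MvPolynomial (Fin N) ℂ ⧸ Ideal.span (Set.range θ)) := by
  obtain ⟨M0, hM0⟩ := Bezout.exists_deg θ h0
  refine Bezout.finite_quotient_of_rep _ M0 fun r => ?_
  classical
  refine ⟨∑ β ∈ r.support with β.degree < M0, monomial β (coeff β r), ?_, ?_⟩
  · refine totalDegree_finsetSum_le fun β hβ => ?_
    refine (isHomogeneous_monomial _ rfl).totalDegree_le.trans ?_
    exact (Finset.mem_filter.mp hβ).2.le
  · have h1 := Finset.sum_filter_add_sum_filter_not r.support (fun β => β.degree < M0)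
      (fun β => monomial β (coeff β r))
    rw [← r.as_sum] at h1
    have h2 : r - ∑ β ∈ r.support with β.degree < M0, monomial β (coeff β r) =
        ∑ β ∈ r.support with ¬ β.degree < M0, monomial β (coeff β r) := by
      linear_combination (-1 : MvPolynomial (Fin N) ℂ) * h1
    rw [h2]
    refine Ideal.sum_mem _ fun β hβ => ?_
    have h3 : monomial β (coeff β r) = C (coeff β r) * monomial β (1 : ℂ) := by
      rw [C_mul_monomial, mul_one]
    rw [h3]
    exact Ideal.mul_mem_left _ _ (hM0 β (not_lt.mp (Finset.mem_filter.mp hβ).2))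

theorem zero_of_finite_quotient {N D : ℕ} (_hD : 1 ≤ D) (θ : Fin N → MvPolynomial (Fin N) ℂ)
    (hhom : ∀ i, (θ i).IsHomogeneous D)
    (hfin : Module.Finite ℂ (MvPolynomial (Fin N) ℂ ⧸ Ideal.span (Set.range θ))) :
    ∀ v, (∀ i, eval v (θ i) = 0) → v = 0 := by
  intro v hv
  by_contra hne
  have h1 := Bezout.finite_zeros_of_finite_quotient (Ideal.span (Set.range θ))
  have h2 : (Set.range fun c : ℂ => c • v).Finite := by
    refine h1.subset ?_
    rintro _ ⟨c, rfl⟩ p hp
    have h3 : Ideal.span (Set.range θ) ≤ RingHom.ker (eval (c • v)) := by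
      rw [Ideal.span_le]
      rintro _ ⟨i, rfl⟩
      rw [SetLike.mem_coe, RingHom.mem_ker, Bezout.eval_smul_of_homogeneous (hhom i), hv i,
        mul_zero]
    exact h3 hp
  exact Set.infinite_range_of_injective (smul_left_injective ℂ hne) h2

namespace Bezout

variable {N : ℕ}

/-- At a nondegenerate fixed point `v`, the ideal `m_v` is contained in `I + m_v²`. -/
theorem ker_le_of_nondegenerate (θ : Fin N → MvPolynomial (Fin N) ℂ) (v : Fin N → ℂ)
    (hv : v ∈ zeroSet θ)
    (hnd : ∀ y : Fin N → ℂ, (∀ i, ∑ j, eval v (pderiv j (θ i)) * y j = y i) → y = 0) :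
    (RingHom.ker (eval v) : Ideal (MvPolynomial (Fin N) ℂ)) ≤
      Ideal.span (Set.range fun i => θ i - (X i : MvPolynomial (Fin N) ℂ)) ⊔
        (RingHom.ker (eval v) : Ideal (MvPolynomial (Fin N) ℂ)) ^ 2 := by
  set I := Ideal.span (Set.range fun i => θ i - (X i : MvPolynomial (Fin N) ℂ)) with hI
  set m := (RingHom.ker (eval v) : Ideal (MvPolynomial (Fin N) ℂ)) with hm
  let L : Matrix (Fin N) (Fin N) ℂ := fun i k => eval v (pderiv k (θ i - X i))
  have hL : ∀ i k, L i k = eval v (pderiv k (θ i)) - if i = k then 1 else 0 := by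
    intro i k
    change eval v (pderiv k (θ i - X i)) = _
    rw [map_sub, map_sub, pderiv_X, Pi.single_apply]
    split_ifs with h <;> simp
  have hunit : IsUnit L := by
    rw [← Matrix.mulVec_injective_iff_isUnit]
    intro y z hyz
    have h1 : L.mulVec (y - z) = 0 := by
      rw [Matrix.mulVec_sub, sub_eq_zero]
      exact hyz
    have h2 : y - z = 0 := by
      apply hnd
      intro i
      have h3 := congrFun h1 i
      simp only [Matrix.mulVec, dotProduct, hL, Pi.zero_apply, sub_mul, Finset.sum_sub_distrib,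
        ite_mul, one_mul, zero_mul, Finset.sum_ite_eq, Finset.mem_univ, if_true] at h3
      exact sub_eq_zero.mp h3
    exact sub_eq_zero.mp h2
  have hLL : L⁻¹ * L = 1 := Matrix.nonsing_inv_mul L ((Matrix.isUnit_iff_isUnit_det L).mp hunit)
  have hY : ∀ k, (X k - C (v k) : MvPolynomial (Fin N) ℂ) ∈ I ⊔ m ^ 2 := by
    intro k
    have h1 : ∀ i, (∑ j, C (L i j) * (X j - C (v j)) : MvPolynomial (Fin N) ℂ) ∈ I ⊔ m ^ 2 := by
      intro i
      have h2 := taylor v (θ i - X i)
      rw [show eval v (θ i - X i) = 0 from hv i, map_zero, sub_zero] at h2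
      have h3 : (∑ j, C (L i j) * (X j - C (v j)) : MvPolynomial (Fin N) ℂ) =
          (θ i - X i) - ((θ i - X i) -
            ∑ k, C (eval v (pderiv k (θ i - X i))) * (X k - C (v k))) := by
        ring
      rw [h3]
      exact Ideal.sub_mem _ (Ideal.mem_sup_left (Ideal.subset_span ⟨i, rfl⟩))
        (Ideal.mem_sup_right h2)
    have h4 : (X k - C (v k) : MvPolynomial (Fin N) ℂ) =
        ∑ i, C (L⁻¹ k i) * ∑ j, C (L i j) * (X j - C (v j)) := by
      have h5 : ∀ j, ∑ i, L⁻¹ k i * L i j = if k = j then 1 else 0 := by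
        intro j
        have := congrFun (congrFun hLL k) j
        rwa [Matrix.mul_apply, Matrix.one_apply] at this
      simp_rw [Finset.mul_sum]
      rw [Finset.sum_comm]
      have h6 : ∀ j, ∑ i, (C (L⁻¹ k i) * (C (L i j) * (X j - C (v j))) :
          MvPolynomial (Fin N) ℂ) = (if k = j then (X j - C (v j)) else 0) := by
        intro j
        simp_rw [← mul_assoc, ← C_mul]
        rw [← Finset.sum_mul, ← map_sum, h5 j]
        split_ifs <;> simp
      rw [Finset.sum_congr rfl fun j _ => h6 j]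
      simp
    rw [h4]
    exact Ideal.sum_mem _ fun i _ => Ideal.mul_mem_left _ _ (h1 i)
  intro f hf
  have hf0 : eval v f = 0 := hf
  have h1 := taylor v f
  rw [hf0, map_zero, sub_zero] at h1
  have h2 : f = (f - ∑ k, C (eval v (pderiv k f)) * (X k - C (v k))) +
      ∑ k, C (eval v (pderiv k f)) * (X k - C (v k)) := by ring
  rw [h2]
  exact Ideal.add_mem _ (Ideal.mem_sup_right h1)
    (Ideal.sum_mem _ fun k _ => Ideal.mul_mem_left _ _ (hY k))

end Bezout

theorem isRadical_of_nondegenerate {N D : ℕ} (hD : 2 ≤ D) (θ : Fin N → MvPolynomial (Fin N) ℂ)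
    (hhom : ∀ i, (θ i).IsHomogeneous D) (h0 : ∀ v, (∀ i, eval v (θ i) = 0) → v = 0)
    (hnd : ∀ v ∈ zeroSet θ, ∀ y : Fin N → ℂ,
      (∀ i, ∑ j, eval v (pderiv j (θ i)) * y j = y i) → y = 0) :
    (Ideal.span (Set.range fun i => θ i - (X i : MvPolynomial (Fin N) ℂ))).IsRadical := by
  set I := Ideal.span (Set.range fun i => θ i - (X i : MvPolynomial (Fin N) ℂ)) with hI
  have hfin := Bezout.finite_zeroSet hD θ hhom h0
  obtain ⟨e, he⟩ := Bezout.exists_interp hfin.toFinset
  simp only [Set.Finite.mem_toFinset] at he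
  have hJ : ∀ p, p ∈ I.radical ↔ ∀ v ∈ zeroSet θ, eval v p = 0 := Bezout.mem_radical_iff θ
  have key : I.radical ≤ I ⊔ I.radical ^ 2 := by
    intro f hf
    have h1 : f = ∑ v ∈ hfin.toFinset, e v ^ 2 * f + (1 - ∑ v ∈ hfin.toFinset, e v ^ 2) * f := by
      rw [← Finset.sum_mul]; ring
    rw [h1]
    refine Ideal.add_mem _ (Ideal.sum_mem _ fun v hv => ?_) (Ideal.mem_sup_right ?_)
    · have hv' : v ∈ zeroSet θ := by simpa using hv
      have h2 := Bezout.ker_le_of_nondegenerate θ v hv' (hnd v hv') ((hJ f).mp hf v hv')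
      obtain ⟨a, ha, q, hq, rfl⟩ := Submodule.mem_sup.mp h2
      rw [mul_add]
      refine Ideal.add_mem _ (Ideal.mem_sup_left (Ideal.mul_mem_left _ _ ha))
        (Ideal.mem_sup_right ?_)
      have h3 : Ideal.span {e v} * (RingHom.ker (eval v) : Ideal (MvPolynomial (Fin N) ℂ)) ≤
          I.radical := by
        rw [Ideal.span_singleton_mul_le_iff]
        intro z hz
        rw [hJ]
        intro w hw
        rw [map_mul]
        by_cases hwv : w = v
        · subst hwv
          rw [show eval w z = 0 from hz, mul_zero]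
        · rw [he v hv' w hw, if_neg hwv, zero_mul]
      have h4 := Ideal.pow_right_mono h3 2
      rw [mul_pow] at h4
      exact h4 (Ideal.mul_mem_mul (Ideal.pow_mem_pow (Ideal.mem_span_singleton_self _) 2) hq)
    · rw [sq]
      refine Ideal.mul_mem_mul ?_ hf
      rw [hJ]
      intro w hw
      rw [map_sub, map_one, map_sum, Finset.sum_eq_single w]
      · rw [map_pow, he w hw w hw, if_pos rfl]; ring
      · intro v hv hvw
        rw [map_pow, he v (by simpa using hv) w hw, if_neg (Ne.symm hvw)]; ring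
      · intro h
        exact absurd (by simpa using hw) h
  have key2 : ∀ n, I.radical ≤ I ⊔ I.radical ^ (n + 1) := by
    intro n
    induction n with
    | zero => rw [zero_add, pow_one]; exact le_sup_right
    | succ n ih =>
      have e1 : I.radical * I.radical ≤ (I ⊔ I.radical ^ (n + 1)) * I.radical :=
        Ideal.mul_mono ih le_rfl
      rw [Ideal.sup_mul, ← pow_succ] at e1
      have e2 : I * I.radical ≤ I := Ideal.mul_le_left
      refine key.trans (sup_le le_sup_left ?_)
      rw [sq]
      exact e1.trans (sup_le (e2.trans le_sup_left) le_sup_right)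
  obtain ⟨s, hs⟩ := Ideal.exists_radical_pow_le_of_fg I (IsNoetherian.noetherian _)
  have h5 : I.radical ≤ I := by
    refine (key2 s).trans (sup_le le_rfl ?_)
    exact (Ideal.pow_le_pow_right (Nat.le_succ s)).trans hs
  exact h5

theorem nondegenerate_of_isRadical {N D : ℕ} (hD : 2 ≤ D) (θ : Fin N → MvPolynomial (Fin N) ℂ)
    (hhom : ∀ i, (θ i).IsHomogeneous D) (h0 : ∀ v, (∀ i, eval v (θ i) = 0) → v = 0)
    (hrad : (Ideal.span (Set.range fun i => θ i - (X i : MvPolynomial (Fin N) ℂ))).IsRadical) :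
    ∀ v ∈ zeroSet θ, ∀ y : Fin N → ℂ,
      (∀ i, ∑ j, eval v (pderiv j (θ i)) * y j = y i) → y = 0 := by
  intro v hv y hy
  set I := Ideal.span (Set.range fun i => θ i - (X i : MvPolynomial (Fin N) ℂ)) with hI
  have hfin := Bezout.finite_zeroSet hD θ hhom h0
  obtain ⟨e, he⟩ := Bezout.exists_interp hfin.toFinset
  simp only [Set.Finite.mem_toFinset] at he
  -- the derivation in direction `y` at `v` kills `I`
  have hkill : ∀ p ∈ I, ∑ j, eval v (pderiv j p) * y j = 0 := by
    intro p hp
    refine Submodule.span_induction ?_ ?_ ?_ ?_ hp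
    · rintro _ ⟨i, rfl⟩
      simp only [map_sub, pderiv_X, sub_mul, Finset.sum_sub_distrib, hy i]
      simp [Pi.single_apply]
    · simp
    · intro a b _ _ ha hb
      simp only [map_add, add_mul, Finset.sum_add_distrib, ha, hb, add_zero]
    · intro a b hb' hb
      have hb0 : eval v b = 0 := (Bezout.mem_zeroSet_iff θ v).mp hv b hb'
      simp only [smul_eq_mul, pderiv_mul, map_add, map_mul, hb0, mul_zero, zero_add]
      rw [← mul_zero (eval v a), ← hb, Finset.mul_sum]
      exact Finset.sum_congr rfl fun j _ => by ring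
  funext k
  have hmem : e v * (X k - C (v k)) ∈ I := by
    apply hrad
    rw [Bezout.mem_radical_iff]
    intro w hw
    rw [map_mul]
    by_cases hwv : w = v
    · subst hwv; simp
    · rw [he v hv w hw, if_neg hwv, zero_mul]
  have h1 := hkill _ hmem
  simp only [pderiv_mul, map_add, map_mul, map_sub, eval_X, eval_C, sub_self, mul_zero, zero_add,
    pderiv_X, pderiv_C, sub_zero, he v hv v hv, if_true, one_mul] at h1
  simpa [Pi.single_apply] using h1

namespace Bezout

variable {N : ℕ}

theorem totalDegree_Phi_le {D : ℕ} (hD : 2 ≤ D) (θ : Fin N → MvPolynomial (Fin N) ℂ)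
    (hhom : ∀ i, (θ i).IsHomogeneous D) (b : MvPolynomial (Fin N) ℂ) {s : ℕ}
    (hb : b.totalDegree ≤ s) : (Phi θ b).totalDegree ≤ s * D := by
  rw [b.as_sum, map_sum]
  refine totalDegree_finsetSum_le fun β hβ => ?_
  have h1 : (Phi θ (monomial β (coeff β b))) = C (coeff β b) * ∏ i, (θ i - X i) ^ β i := by
    rw [Phi, aeval_monomial, Finsupp.prod_fintype _ _ (by simp)]
    rfl
  rw [h1]
  refine (totalDegree_mul _ _).trans ?_
  rw [totalDegree_C, zero_add]
  refine (totalDegree_finsetProd _ _).trans ?_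
  have h2 : ∀ i, ((θ i - X i) ^ β i).totalDegree ≤ β i * D := by
    intro i
    refine (totalDegree_pow _ _).trans (Nat.mul_le_mul_left _ ?_)
    refine (totalDegree_sub _ _).trans (max_le (hhom i).totalDegree_le ?_)
    rw [totalDegree_X]; omega
  refine (Finset.sum_le_sum fun i _ => h2 i).trans ?_
  rw [← Finset.sum_mul, ← Finsupp.degree_eq_sum]
  refine Nat.mul_le_mul_right _ (le_trans ?_ hb)
  exact le_totalDegree hβ

/-- If all coefficients of `b` in degrees `< t` vanish then `b(ε u) = ε^t (b_t(u(0)) + O(ε))`. -/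
theorem exists_low (b : MvPolynomial (Fin N) ℂ) (t : ℕ) (u : Fin N → Polynomial ℂ)
    (hb : ∀ β : Fin N →₀ ℕ, β.degree < t → coeff β b = 0) :
    ∃ w : Polynomial ℂ, aeval (fun i => Polynomial.X * u i) b = Polynomial.X ^ t * w ∧
      w.eval 0 = eval (fun i => (u i).eval 0) (homogeneousComponent t b) := by
  classical
  refine ⟨∑ β ∈ b.support, Polynomial.C (coeff β b) *
    (Polynomial.X ^ (β.degree - t) * ∏ i, u i ^ β i), ?_, ?_⟩
  · conv_lhs => rw [b.as_sum]
    rw [map_sum, Finset.mul_sum]
    refine Finset.sum_congr rfl fun β hβ => ?_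
    have hdeg : t ≤ β.degree := by
      by_contra hlt
      exact (mem_support_iff.mp hβ) (hb β (not_le.mp hlt))
    rw [aeval_monomial, Finsupp.prod_fintype _ _ (by simp)]
    simp only [mul_pow, Finset.prod_mul_distrib, Finset.prod_pow_eq_pow_sum]
    rw [← Finsupp.degree_eq_sum, Polynomial.algebraMap_eq]
    rw [show Polynomial.X ^ β.degree = (Polynomial.X ^ t * Polynomial.X ^ (β.degree - t) :
      Polynomial ℂ) by rw [← pow_add, Nat.add_sub_cancel' hdeg]]
    ring
  · rw [Polynomial.eval_finsetSum, homogeneousComponent_apply, map_sum, Finset.sum_filter]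
    refine Finset.sum_congr rfl fun β hβ => ?_
    have hdeg : t ≤ β.degree := by
      by_contra hlt
      exact (mem_support_iff.mp hβ) (hb β (not_le.mp hlt))
    rw [Polynomial.eval_mul, Polynomial.eval_C, Polynomial.eval_mul, Polynomial.eval_pow,
      Polynomial.eval_X, Polynomial.eval_prod]
    split_ifs with h
    · rw [h, Nat.sub_self, pow_zero, one_mul, eval_monomial, Finsupp.prod_fintype _ _ (by simp)]
      simp
    · rw [zero_pow (by omega), zero_mul, mul_zero]

theorem eval_zero_line (v a : Fin N → ℂ) (p : MvPolynomial (Fin N) ℂ) :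
    (aeval (fun i => Polynomial.C (v i) + Polynomial.X * Polynomial.C (a i)) p).eval 0 =
      eval v p := by
  have := (MvPolynomial.comp_aeval_apply
    (fun i => Polynomial.C (v i) + Polynomial.X * Polynomial.C (a i))
    (Polynomial.aeval (0 : ℂ)) p)
  rw [Polynomial.coe_aeval_eq_eval] at this
  rw [this]
  simp only [Polynomial.eval_add, Polynomial.eval_C, Polynomial.eval_mul, Polynomial.eval_X,
    zero_mul, add_zero]
  rfl

theorem line_expand (v a : Fin N → ℂ) (p : MvPolynomial (Fin N) ℂ) (hp : eval v p = 0) :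
    ∃ r : Polynomial ℂ,
      aeval (fun i => Polynomial.C (v i) + Polynomial.X * Polynomial.C (a i)) p =
      Polynomial.X * (Polynomial.C (∑ j, eval v (pderiv j p) * a j) + Polynomial.X * r) := by
  have h1 : (RingHom.ker (eval v) : Ideal (MvPolynomial (Fin N) ℂ)) ^ 2 ≤
      (Ideal.span {(Polynomial.X : Polynomial ℂ)} ^ 2).comap
        (aeval (fun i => Polynomial.C (v i) + Polynomial.X * Polynomial.C (a i))) := by
    refine le_trans (Ideal.pow_right_mono ?_ 2) (Ideal.le_comap_pow _ 2)
    intro q hq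
    rw [Ideal.mem_comap, Ideal.mem_span_singleton, Polynomial.X_dvd_iff,
      Polynomial.coeff_zero_eq_eval_zero, eval_zero_line]
    exact hq
  have h2 := h1 (taylor v p)
  rw [Ideal.mem_comap, Ideal.span_singleton_pow, Ideal.mem_span_singleton] at h2
  obtain ⟨r, hr⟩ := h2
  refine ⟨r, ?_⟩
  rw [hp, map_zero, sub_zero, map_sub, map_sum] at hr
  simp only [map_mul, map_sub, aeval_X, algHom_C, Polynomial.algebraMap_eq,
    add_sub_cancel_left] at hr
  rw [map_sum, mul_add, Finset.mul_sum]
  rw [sub_eq_iff_eq_add] at hr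
  rw [hr]
  have h3 : ∀ j, Polynomial.C (eval v (pderiv j p)) * (Polynomial.X * Polynomial.C (a j)) =
      Polynomial.X * Polynomial.C (eval v (pderiv j p) * a j) := by
    intro j
    rw [Polynomial.C_mul]; ring
  rw [Finset.sum_congr rfl fun j _ => h3 j]
  ring

theorem indep (θ : Fin N → MvPolynomial (Fin N) ℂ)
    (hnd : ∀ v ∈ zeroSet θ, ∀ y : Fin N → ℂ,
      (∀ i, ∑ j, eval v (pderiv j (θ i)) * y j = y i) → y = 0)
    (Z : Finset (Fin N → ℂ)) (hZ : ∀ v ∈ Z, v ∈ zeroSet θ)
    (e : (Fin N → ℂ) → MvPolynomial (Fin N) ℂ)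
    (he : ∀ w ∈ Z, ∀ v ∈ Z, eval v (e w) = if v = w then 1 else 0)
    (b : (Fin N → ℂ) → MvPolynomial (Fin N) ℂ) (hb : ∑ v ∈ Z, Phi θ (b v) * e v = 0) :
    ∀ v ∈ Z, b v = 0 := by
  -- all coefficients of degree `< t` vanish, for every `t`
  have key : ∀ t : ℕ, ∀ v ∈ Z, ∀ β : Fin N →₀ ℕ, β.degree < t → coeff β (b v) = 0 := by
    intro t
    induction t with
    | zero => intro v _ β hβ; exact absurd hβ (Nat.not_lt_zero _)
    | succ t ih =>
      intro v hv β hβ
      rcases Nat.lt_succ_iff_lt_or_eq.mp hβ with hlt | heq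
      · exact ih v hv β hlt
      -- the degree-`t` component of `b v` vanishes
      suffices h : homogeneousComponent t (b v) = 0 by
        have := coeff_homogeneousComponent t (b v) β
        rw [h, coeff_zero, if_pos heq] at this
        exact this.symm
      have hline : ∀ a : Fin N → ℂ,
          eval (fun i => ∑ j, eval v (pderiv j (θ i - X i)) * a j)
            (homogeneousComponent t (b v)) = 0 := by
        intro a
        have h1 : ∀ i, ∃ r : Polynomial ℂ,
            aeval (fun i => Polynomial.C (v i) + Polynomial.X * Polynomial.C (a i))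
              (θ i - X i) = Polynomial.X *
              (Polynomial.C (∑ j, eval v (pderiv j (θ i - X i)) * a j) + Polynomial.X * r) :=
          fun i => line_expand v a _ (hZ v hv i)
        choose r hr using h1
        set u : Fin N → Polynomial ℂ := fun i =>
          Polynomial.C (∑ j, eval v (pderiv j (θ i - X i)) * a j) + Polynomial.X * r i with hu
        have hu0 : (fun i => (u i).eval 0) =
            fun i => ∑ j, eval v (pderiv j (θ i - X i)) * a j := by
          funext i
          rw [hu]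
          simp only [Polynomial.eval_add, Polynomial.eval_C, Polynomial.eval_mul,
            Polynomial.eval_X, zero_mul, add_zero]
        have h2 : ∀ w ∈ Z, ∃ q : Polynomial ℂ,
            aeval (fun i => Polynomial.X * u i) (b w) = Polynomial.X ^ t * q ∧
              q.eval 0 = eval (fun i => (u i).eval 0) (homogeneousComponent t (b w)) :=
          fun w hw => exists_low (b w) t u (ih w hw)
        choose! q hq hq0 using h2
        have h3 : ∀ w, aeval (fun i => Polynomial.C (v i) + Polynomial.X * Polynomial.C (a i))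
            (Phi θ (b w)) = aeval (fun i => Polynomial.X * u i) (b w) := by
          intro w
          rw [Phi, comp_aeval_apply]
          congr 2
          funext i
          exact hr i
        have h4 := congrArg
          (aeval (fun i => Polynomial.C (v i) + Polynomial.X * Polynomial.C (a i))) hb
        rw [map_sum, map_zero] at h4
        have h5 : Polynomial.X ^ t * ∑ w ∈ Z, q w *
            aeval (fun i => Polynomial.C (v i) + Polynomial.X * Polynomial.C (a i)) (e w) = 0 := by
          rw [← h4, Finset.mul_sum]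
          refine Finset.sum_congr rfl fun w hw => ?_
          rw [map_mul, h3, hq w hw]
          ring
        have h6 := (mul_eq_zero.mp h5).resolve_left (pow_ne_zero t Polynomial.X_ne_zero)
        have h7 := congrArg (Polynomial.eval 0) h6
        rw [Polynomial.eval_finsetSum, Polynomial.eval_zero, Finset.sum_eq_single v] at h7
        · rw [Polynomial.eval_mul, eval_zero_line, he v hv v hv, if_pos rfl, mul_one,
            hq0 v hv, hu0] at h7
          exact h7
        · intro w hw hwv
          rw [Polynomial.eval_mul, eval_zero_line, he w hw v hv, if_neg (Ne.symm hwv), mul_zero]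
        · intro h
          exact absurd hv h
      -- surjectivity of the Jacobian
      have hsurj : Function.Surjective (fun (a : Fin N → ℂ) (i : Fin N) =>
          ∑ j, eval v (pderiv j (θ i - X i)) * a j) := by
        have hinj : Function.Injective
            (Matrix.mulVecLin (fun i j => eval v (pderiv j (θ i - X i)) :
              Matrix (Fin N) (Fin N) ℂ)) := by
          rw [← LinearMap.ker_eq_bot, LinearMap.ker_eq_bot']
          intro y hy
          apply hnd v (hZ v hv)
          intro i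
          have h3 : ∑ j, eval v (pderiv j (θ i - X i)) * y j = 0 := congrFun hy i
          simp only [map_sub, pderiv_X, sub_mul, Finset.sum_sub_distrib] at h3
          rw [sub_eq_zero] at h3
          rw [h3]
          simp [Pi.single_apply]
        exact LinearMap.surjective_of_injective hinj
      apply MvPolynomial.funext
      intro x
      obtain ⟨a, ha⟩ := hsurj x
      rw [← ha, map_zero]
      exact hline a
  intro v hv
  ext β
  rw [coeff_zero]
  exact key (β.degree + 1) v hv β (Nat.lt_succ_self _)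

end Bezout

namespace Bezout

variable {N : ℕ}

/-- The exponents of degree at most `M0`. -/
noncomputable def expo (N M0 : ℕ) : Finset (Fin N →₀ ℕ) :=
  (Finsupp.finite_of_degree_le (σ := Fin N) M0).toFinset

theorem mem_expo {M0 : ℕ} (β : Fin N →₀ ℕ) : β ∈ expo N M0 ↔ β.degree ≤ M0 := by
  simp [expo]

theorem WW_rep (θ : Fin N → MvPolynomial (Fin N) ℂ) (M0 s : ℕ) (r : MvPolynomial (Fin N) ℂ)
    (hr : r ∈ WW θ M0 s) : ∃ b : (Fin N →₀ ℕ) → MvPolynomial (Fin N) ℂ,
      (∀ β, (b β).totalDegree ≤ s) ∧ r = ∑ β ∈ expo N M0, Phi θ (b β) * monomial β 1 := by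
  unfold WW at hr
  refine Submodule.mul_induction_on hr ?_ ?_
  · rintro _ ⟨b, hb, rfl⟩ p hp
    rw [SetLike.mem_coe, mem_restrictTotalDegree] at hb
    rw [mem_restrictTotalDegree] at hp
    refine ⟨fun β => b * C (coeff β p), fun β => ?_, ?_⟩
    · refine (totalDegree_mul _ _).trans ?_
      rw [totalDegree_C]
      exact hb
    · have h1 : p = ∑ β ∈ expo N M0, monomial β (coeff β p) := by
        conv_lhs => rw [p.as_sum]
        refine Finset.sum_subset ?_ ?_
        · intro β hβ
          rw [mem_expo]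
          exact (le_totalDegree hβ).trans hp
        · intro β _ hβ
          rw [notMem_support_iff.mp hβ, monomial_zero]
      conv_lhs => rw [h1]
      rw [Finset.mul_sum, AlgHom.toLinearMap_apply]
      refine Finset.sum_congr rfl fun β _ => ?_
      rw [map_mul, algHom_C, algebraMap_eq, mul_assoc, C_mul_monomial, mul_one]
  · rintro x y ⟨b, hb, hx⟩ ⟨c, hc, hy⟩
    refine ⟨fun β => b β + c β, fun β => (totalDegree_add _ _).trans (max_le (hb β) (hc β)), ?_⟩
    rw [hx, hy, ← Finset.sum_add_distrib]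
    refine Finset.sum_congr rfl fun β _ => ?_
    rw [map_add]; ring

/-- Nakayama: a nonzero `δ` multiplies the generators into the span of the `e_v`. -/
theorem exists_delta {D M0 : ℕ} (θ : Fin N → MvPolynomial (Fin N) ℂ)
    (hW : ∀ T, restrictTotalDegree (Fin N) ℂ T ≤ WW θ M0 (T / D))
    (hrad : (Ideal.span (Set.range fun i => θ i - (X i : MvPolynomial (Fin N) ℂ))).IsRadical)
    (Z : Finset (Fin N → ℂ)) (hZ : ∀ v, v ∈ Z ↔ v ∈ zeroSet θ)
    (e : (Fin N → ℂ) → MvPolynomial (Fin N) ℂ)
    (he : ∀ w ∈ Z, ∀ v ∈ Z, eval v (e w) = if v = w then 1 else 0) :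
    ∃ δ : MvPolynomial (Fin N) ℂ, δ ≠ 0 ∧
      ∃ d : (Fin N →₀ ℕ) → (Fin N → ℂ) → MvPolynomial (Fin N) ℂ, ∀ β ∈ expo N M0,
        Phi θ δ * monomial β 1 = ∑ v ∈ Z, Phi θ (d β v) * e v := by
  classical
  have h1 : ∀ β : Fin N →₀ ℕ, ∃ r : Fin N → MvPolynomial (Fin N) ℂ,
      ∑ i, r i * (θ i - X i) =
        monomial β 1 - ∑ v ∈ Z, C (eval v (monomial β (1 : ℂ))) * e v := by
    intro β
    apply Ideal.mem_span_range_iff_exists_fun.mp
    apply hrad
    rw [mem_radical_iff]
    intro w hw
    have hw' := (hZ w).mpr hw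
    rw [map_sub, map_sum, Finset.sum_eq_single w]
    · rw [map_mul, eval_C, he w hw' w hw', if_pos rfl, mul_one, sub_self]
    · intro v hv hvw
      rw [map_mul, he v hv w hw', if_neg (Ne.symm hvw), mul_zero]
    · intro h
      exact absurd hw' h
  choose r hr using h1
  have h2 : ∀ (β : Fin N →₀ ℕ) (i : Fin N), ∃ b : (Fin N →₀ ℕ) → MvPolynomial (Fin N) ℂ,
      r β i = ∑ γ ∈ expo N M0, Phi θ (b γ) * monomial γ 1 := by
    intro β i
    obtain ⟨b, _, hb⟩ := WW_rep θ M0 _ (r β i)
      (hW (r β i).totalDegree ((mem_restrictTotalDegree _ _ _).mpr le_rfl))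
    exact ⟨b, hb⟩
  choose b hb using h2
  let A : Matrix (expo N M0) (expo N M0) (MvPolynomial (Fin N) ℂ) :=
    fun β γ => ∑ i, X i * b β i γ
  let B : Matrix (expo N M0) (expo N M0) (MvPolynomial (Fin N) ℂ) := 1 - A
  let y : expo N M0 → MvPolynomial (Fin N) ℂ := fun β => monomial (β : Fin N →₀ ℕ) 1
  let ce : expo N M0 → MvPolynomial (Fin N) ℂ := fun β =>
    ∑ v ∈ Z, C (eval v (monomial (β : Fin N →₀ ℕ) (1 : ℂ))) * e v
  have h3 : (B.map (Phi θ)).mulVec y = ce := by
    funext β
    have e1 : (B.map (Phi θ)).mulVec y β = y β - ∑ γ, Phi θ (A β γ) * y γ := by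
      simp only [Matrix.mulVec, dotProduct, Matrix.map_apply, B, Matrix.sub_apply, map_sub,
        sub_mul, Finset.sum_sub_distrib]
      congr 1
      simp [Matrix.one_apply, apply_ite (Phi θ), ite_mul]
    rw [e1]
    have e2 : ∑ γ, Phi θ (A β γ) * y γ = ∑ i, r β i * (θ i - X i) := by
      have e3 : ∀ i, r β i * (θ i - X i) =
          ∑ γ : expo N M0, Phi θ (X i * b β i γ) * y γ := by
        intro i
        rw [hb β i, Finset.sum_mul, ← Finset.sum_coe_sort]
        refine Finset.sum_congr rfl fun γ _ => ?_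
        rw [map_mul, Phi_X]
        ring
      rw [Finset.sum_congr rfl fun i _ => e3 i, Finset.sum_comm]
      refine Finset.sum_congr rfl fun γ _ => ?_
      rw [← Finset.sum_mul]
      simp only [A, map_sum]
    rw [e2, hr]
    simp only [y, ce]
    ring
  have h4 : (B.adjugate.map (Phi θ)) * (B.map (Phi θ)) =
      (Phi θ B.det) • (1 : Matrix (expo N M0) (expo N M0) (MvPolynomial (Fin N) ℂ)) := by
    have : (B.adjugate.map (Phi θ)) * (B.map (Phi θ)) = (B.adjugate * B).map (Phi θ) := by
      rw [Matrix.map_mul]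
    rw [this, Matrix.adjugate_mul]
    ext i j
    simp only [Matrix.map_apply, Matrix.smul_apply, smul_eq_mul, map_mul, Matrix.one_apply]
    split_ifs <;> simp
  have h5 : ∀ β, Phi θ B.det * y β = ∑ γ, Phi θ (B.adjugate β γ) * ce γ := by
    intro β
    have e1 := congrArg (fun w => (B.adjugate.map (Phi θ)).mulVec w β) h3
    simp only [Matrix.mulVec_mulVec, h4, Matrix.smul_mulVec, Matrix.one_mulVec] at e1
    exact e1
  refine ⟨B.det, ?_, fun β v => if h : β ∈ expo N M0 then
    ∑ γ : expo N M0, B.adjugate ⟨β, h⟩ γ * C (eval v (monomial (γ : Fin N →₀ ℕ) (1 : ℂ)))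
      else 0, ?_⟩
  · intro hdet
    have e1 := congrArg (eval (0 : Fin N → ℂ)) hdet
    rw [RingHom.map_det, map_zero] at e1
    have e2 : (eval (0 : Fin N → ℂ)).mapMatrix B = 1 := by
      refine Matrix.ext fun i j => ?_
      have hB : B i j = (1 : Matrix (expo N M0) (expo N M0) (MvPolynomial (Fin N) ℂ)) i j -
        ∑ k, X k * b i k j := rfl
      rw [RingHom.mapMatrix_apply, Matrix.map_apply, hB, map_sub, map_sum]
      simp only [map_mul, eval_X, Pi.zero_apply, zero_mul, Finset.sum_const_zero, sub_zero,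
        Matrix.one_apply]
      split_ifs <;> simp
    rw [e2, Matrix.det_one] at e1
    exact one_ne_zero e1
  · intro β hβ
    have e1 := h5 ⟨β, hβ⟩
    simp only [y] at e1
    rw [e1]
    simp only [ce, Finset.mul_sum, dif_pos hβ, map_sum, Finset.sum_mul]
    rw [Finset.sum_comm]
    refine Finset.sum_congr rfl fun v _ => Finset.sum_congr rfl fun γ _ => ?_
    rw [map_mul, algHom_C, algebraMap_eq]
    ring

end Bezout

open Bezout in
theorem ncard_zeroSet {N D : ℕ} (hD : 2 ≤ D) (θ : Fin N → MvPolynomial (Fin N) ℂ)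
    (hhom : ∀ i, (θ i).IsHomogeneous D) (h0 : ∀ v, (∀ i, eval v (θ i) = 0) → v = 0)
    (hnd : ∀ v ∈ zeroSet θ, ∀ y : Fin N → ℂ,
      (∀ i, ∑ j, eval v (pderiv j (θ i)) * y j = y i) → y = 0) :
    (zeroSet θ).ncard = D ^ N := by
  classical
  have hrad := isRadical_of_nondegenerate hD θ hhom h0 hnd
  have hfin := finite_zeroSet hD θ hhom h0
  set Z := hfin.toFinset with hZdef
  have hZ : ∀ v, v ∈ Z ↔ v ∈ zeroSet θ := fun v => by simp [hZdef]
  obtain ⟨e, he⟩ := exists_interp Z
  obtain ⟨M0, hM0⟩ := exists_M0 hD θ hhom h0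
  obtain ⟨δ, hδ, d, hd⟩ := exists_delta θ hM0 hrad Z hZ e he
  rw [Set.ncard_eq_toFinset_card _ hfin, ← hZdef]
  -- the maps `Ψ_s`
  let Ψ : (s : ℕ) → (Z → restrictTotalDegree (Fin N) ℂ s) →ₗ[ℂ] MvPolynomial (Fin N) ℂ :=
    fun s => ∑ v : Z, (LinearMap.mulRight ℂ (e v)) ∘ₗ (Phi θ).toLinearMap ∘ₗ
      (restrictTotalDegree (Fin N) ℂ s).subtype ∘ₗ LinearMap.proj v
  have hΨ : ∀ s b, Ψ s b = ∑ v : Z, Phi θ (b v : MvPolynomial (Fin N) ℂ) * e v := by
    intro s b
    simp [Ψ]
  have hrank : ∀ s, Module.finrank ℂ (Z → restrictTotalDegree (Fin N) ℂ s) =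
      Z.card * (s + N).choose N := by
    intro s
    rw [Module.finrank_pi_fintype]
    simp [finrank_restrictTotalDegree]
  -- injectivity
  have hinj : ∀ s, Function.Injective (Ψ s) := by
    intro s
    rw [← LinearMap.ker_eq_bot, LinearMap.ker_eq_bot']
    intro b hb
    rw [hΨ] at hb
    have h1 := indep θ hnd Z (fun v hv => (hZ v).mp hv) e he
      (fun v => if h : v ∈ Z then (b ⟨v, h⟩ : MvPolynomial (Fin N) ℂ) else 0) (by
        rw [← hb, ← Finset.sum_coe_sort]
        refine Finset.sum_congr rfl fun v _ => ?_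
        rw [dif_pos v.2])
    funext v
    have h2 := h1 v v.2
    rw [dif_pos v.2] at h2
    exact Subtype.ext h2
  have hne : Z.Nonempty := by
    refine ⟨0, (hZ 0).mpr fun i => ?_⟩
    have h1 : eval (0 : Fin N → ℂ) (θ i) = 0 := by
      have := eval_smul_of_homogeneous (hhom i) 0 (0 : Fin N → ℂ)
      rw [zero_pow (by omega), zero_mul, zero_smul] at this
      exact this
    rw [map_sub, h1, eval_X]
    simp
  have hPhi : ∀ b, Phi θ b = 0 → b = 0 := by
    intro b hb
    obtain ⟨v, hv⟩ := hne
    exact indep θ hnd Z (fun v hv => (hZ v).mp hv) e he (fun _ => b) (by simp [hb]) v hv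
  obtain ⟨E, hE⟩ : ∃ E, ∀ v ∈ Z, (e v).totalDegree ≤ E :=
    ⟨Z.sup fun v => (e v).totalDegree, fun v hv => Finset.le_sup (f := fun v =>
      (e v).totalDegree) hv⟩
  obtain ⟨K, hK⟩ : ∃ K, ∀ β ∈ expo N M0, ∀ v ∈ Z, (d β v).totalDegree ≤ K := by
    refine ⟨(expo N M0).sup fun β => Z.sup fun v => (d β v).totalDegree, fun β hβ v hv => ?_⟩
    exact le_trans (Finset.le_sup (f := fun v => (d β v).totalDegree) hv)
      (Finset.le_sup (f := fun β => Z.sup fun v => (d β v).totalDegree) hβ)
  refine numeric N D E K Z.card ?_ ?_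
  · intro s
    rw [← hrank, ← finrank_restrictTotalDegree N (s * D + E)]
    have h1 : ∀ b, Ψ s b ∈ restrictTotalDegree (Fin N) ℂ (s * D + E) := by
      intro b
      rw [hΨ]
      refine Submodule.sum_mem _ fun v _ => ?_
      rw [mem_restrictTotalDegree]
      refine (totalDegree_mul _ _).trans (add_le_add ?_ (hE v v.2))
      exact totalDegree_Phi_le hD θ hhom _ ((mem_restrictTotalDegree _ _ _).mp (b v).2)
    refine LinearMap.finrank_le_finrank_of_injective (f := (Ψ s).codRestrict _ h1) ?_
    intro a b hab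
    apply hinj s
    exact congrArg Subtype.val hab
  · intro s
    rw [← hrank, ← finrank_restrictTotalDegree N (s * D)]
    have h1 : ∀ r : restrictTotalDegree (Fin N) ℂ (s * D),
        Phi θ δ * (r : MvPolynomial (Fin N) ℂ) ∈ LinearMap.range (Ψ (s + K)) := by
      rintro ⟨r, hr⟩
      have h2 := hM0 _ hr
      rw [Nat.mul_div_cancel _ (by omega)] at h2
      obtain ⟨b, hb, hrb⟩ := WW_rep θ M0 s r h2
      refine ⟨fun v => ⟨∑ β ∈ expo N M0, b β * d β v, ?_⟩, ?_⟩
      · refine Submodule.sum_mem _ fun β hβ => ?_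
        rw [mem_restrictTotalDegree]
        exact (totalDegree_mul _ _).trans (add_le_add (hb β) (hK β hβ v v.2))
      · rw [hΨ]
        simp only
        rw [Finset.sum_coe_sort Z (fun v => Phi θ (∑ β ∈ expo N M0, b β * d β v) * e v), hrb,
          Finset.mul_sum]
        have h3 : ∀ β ∈ expo N M0, Phi θ δ * (Phi θ (b β) * monomial β 1) =
            ∑ v ∈ Z, Phi θ (b β * d β v) * e v := by
          intro β hβ
          rw [mul_left_comm, hd β hβ, Finset.mul_sum]
          refine Finset.sum_congr rfl fun v _ => ?_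
          rw [map_mul]; ring
        rw [Finset.sum_congr rfl h3, Finset.sum_comm]
        refine Finset.sum_congr rfl fun v _ => ?_
        rw [map_sum, Finset.sum_mul]
    refine le_trans ?_ (LinearMap.finrank_range_le (Ψ (s + K)))
    refine LinearMap.finrank_le_finrank_of_injective
      (f := ((LinearMap.mulLeft ℂ (Phi θ δ)) ∘ₗ
        (restrictTotalDegree (Fin N) ℂ (s * D)).subtype).codRestrict _ h1) ?_
    intro a b hab
    have h4 : Phi θ δ * (a : MvPolynomial (Fin N) ℂ) = Phi θ δ * b := congrArg Subtype.val hab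
    exact Subtype.ext (mul_left_cancel₀ (fun h => hδ (hPhi δ h)) h4)

namespace Bezout

/-- Chain rule for a linear substitution. -/
theorem pderiv_linear_subst {N d : ℕ} (L : Fin N → Fin d → ℂ) (b : Fin d)
    (p : MvPolynomial (Fin N) ℂ) :
    pderiv b (aeval (fun i => ∑ a, C (L i a) * X a : Fin N → MvPolynomial (Fin d) ℂ) p) =
      ∑ j, aeval (fun i => ∑ a, C (L i a) * X a : Fin N → MvPolynomial (Fin d) ℂ) (pderiv j p) *
        C (L j b) := by
  induction p using MvPolynomial.induction_on with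
  | C a => simp [algHom_C]
  | add p q hp hq =>
    simp only [map_add, hp, hq, add_mul, Finset.sum_add_distrib]
  | mul_X p l hp =>
    have h1 : pderiv b (∑ a, C (L l a) * X a : MvPolynomial (Fin d) ℂ) = C (L l b) := by
      rw [map_sum, Finset.sum_eq_single b]
      · rw [pderiv_C_mul, pderiv_X_self, mul_one]
      · intro a _ hab
        rw [pderiv_C_mul, pderiv_X_of_ne hab, mul_zero]
      · intro h
        exact absurd (Finset.mem_univ _) h
    rw [map_mul, aeval_X, pderiv_mul, hp, h1]
    have h2 : ∀ j, aeval (fun i => ∑ a, C (L i a) * X a : Fin N → MvPolynomial (Fin d) ℂ)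
        (pderiv j (p * X l)) * C (L j b) =
        (aeval (fun i => ∑ a, C (L i a) * X a : Fin N → MvPolynomial (Fin d) ℂ) (pderiv j p) *
          C (L j b)) * (∑ a, C (L l a) * X a) +
        (if j = l then aeval (fun i => ∑ a, C (L i a) * X a : Fin N → MvPolynomial (Fin d) ℂ) p *
          C (L l b) else 0) := by
      intro j
      rw [pderiv_mul, map_add, map_mul, map_mul, aeval_X, pderiv_X, Pi.single_apply]
      by_cases h : j = l
      · subst h
        rw [if_pos rfl, if_pos rfl, map_one]
        ring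
      · rw [if_neg h, if_neg (Ne.symm h), map_zero]
        ring
    rw [Finset.sum_congr rfl fun j _ => h2 j, Finset.sum_add_distrib, ← Finset.sum_mul]
    simp

end Bezout

theorem ncard_zeroSet_inter {N D : ℕ} (hD : 2 ≤ D) (θ : Fin N → MvPolynomial (Fin N) ℂ)
    (hhom : ∀ i, (θ i).IsHomogeneous D) (h0 : ∀ v, (∀ i, eval v (θ i) = 0) → v = 0)
    (hnd : ∀ v ∈ zeroSet θ, ∀ y : Fin N → ℂ,
      (∀ i, ∑ j, eval v (pderiv j (θ i)) * y j = y i) → y = 0)
    (U : Submodule ℂ (Fin N → ℂ)) (hU : ∀ v ∈ U, polyMap θ v ∈ U) :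
    {v | v ∈ zeroSet θ ∧ v ∈ U}.ncard = D ^ Module.finrank ℂ U := by
  classical
  let bU := Module.finBasis ℂ U
  let ι : (Fin (Module.finrank ℂ U) → ℂ) →ₗ[ℂ] (Fin N → ℂ) :=
    U.subtype ∘ₗ (bU.equivFun.symm : (Fin (Module.finrank ℂ U) → ℂ) →ₗ[ℂ] U)
  have hιinj : Function.Injective ι := fun x y hxy =>
    bU.equivFun.symm.injective (Subtype.ext hxy)
  have hιU : ∀ y, ι y ∈ U := fun y => (bU.equivFun.symm y).2
  have hUι : ∀ v ∈ U, ∃ y, ι y = v := fun v hv =>
    ⟨bU.equivFun ⟨v, hv⟩, by simp [ι]⟩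
  obtain ⟨π, hπ⟩ := ι.exists_leftInverse_of_injective (LinearMap.ker_eq_bot.mpr hιinj)
  have hπι : ∀ y, π (ι y) = y := fun y => LinearMap.congr_fun hπ y
  have hιπ : ∀ v ∈ U, ι (π v) = v := by
    intro v hv
    obtain ⟨y, rfl⟩ := hUι v hv
    rw [hπι]
  let L : Fin N → Fin (Module.finrank ℂ U) → ℂ := fun i a => ι (Pi.single a 1) i
  have hL : ∀ y i, ι y i = ∑ a, L i a * y a := by
    intro y i
    conv_lhs => rw [← Finset.univ_sum_single y]
    rw [map_sum, Finset.sum_apply]
    refine Finset.sum_congr rfl fun a _ => ?_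
    have : (Pi.single a (y a) : Fin (Module.finrank ℂ U) → ℂ) = y a • Pi.single a 1 := by
      rw [← Pi.single_smul, smul_eq_mul, mul_one]
    rw [this, map_smul, Pi.smul_apply, smul_eq_mul, mul_comm]
  let M : Fin (Module.finrank ℂ U) → Fin N → ℂ := fun a i => π (Pi.single i 1) a
  have hM : ∀ v a, π v a = ∑ i, M a i * v i := by
    intro v a
    conv_lhs => rw [← Finset.univ_sum_single v]
    rw [map_sum, Finset.sum_apply]
    refine Finset.sum_congr rfl fun i _ => ?_
    have : (Pi.single i (v i) : Fin N → ℂ) = v i • Pi.single i 1 := by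
      rw [← Pi.single_smul, smul_eq_mul, mul_one]
    rw [this, map_smul, Pi.smul_apply, smul_eq_mul, mul_comm]
  let S : MvPolynomial (Fin N) ℂ →ₐ[ℂ] MvPolynomial (Fin (Module.finrank ℂ U)) ℂ :=
    aeval (fun i => ∑ a, C (L i a) * X a)
  have hS : ∀ y p, eval y (S p) = eval (ι y) p := by
    intro y p
    have h1 := MvPolynomial.comp_aeval_apply
      (fun i => ∑ a, C (L i a) * X a : Fin N → MvPolynomial (Fin (Module.finrank ℂ U)) ℂ)
      (aeval y : MvPolynomial (Fin (Module.finrank ℂ U)) ℂ →ₐ[ℂ] ℂ) p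
    have h2 : (fun i => (aeval y : MvPolynomial (Fin (Module.finrank ℂ U)) ℂ →ₐ[ℂ] ℂ)
        (∑ a, C (L i a) * X a)) = ι y := by
      funext i
      rw [hL, map_sum]
      refine Finset.sum_congr rfl fun a _ => ?_
      rw [map_mul, aeval_X, algHom_C]
      rfl
    rw [h2] at h1
    exact h1
  let θ' : Fin (Module.finrank ℂ U) → MvPolynomial (Fin (Module.finrank ℂ U)) ℂ :=
    fun a => ∑ i, C (M a i) * S (θ i)
  have hθ' : ∀ y, polyMap θ' y = π (polyMap θ (ι y)) := by
    intro y
    funext a
    rw [hM]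
    simp only [polyMap, θ', map_sum, map_mul, eval_C, hS]
  have hιθ' : ∀ y, ι (polyMap θ' y) = polyMap θ (ι y) := by
    intro y
    rw [hθ', hιπ _ (hU _ (hιU y))]
  have hhom' : ∀ a, (θ' a).IsHomogeneous D := by
    intro a
    refine IsHomogeneous.sum _ _ _ fun i _ => ?_
    refine IsHomogeneous.C_mul ?_ _
    have := (hhom i).aeval (fun i => ∑ a, C (L i a) * X a :
      Fin N → MvPolynomial (Fin (Module.finrank ℂ U)) ℂ) (n := 1) (fun i =>
        IsHomogeneous.sum _ _ _ fun a _ => isHomogeneous_C_mul_X _ _)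
    rwa [one_mul] at this
  have hid : ∀ i, S (θ i) = ∑ a, C (L i a) * θ' a := by
    intro i
    apply MvPolynomial.funext
    intro y
    rw [hS, map_sum]
    simp only [map_mul, eval_C]
    rw [show (∑ a, L i a * eval y (θ' a)) = ι (polyMap θ' y) i from (hL _ _).symm, hιθ']
    rfl
  have h0' : ∀ y, (∀ a, eval y (θ' a) = 0) → y = 0 := by
    intro y hy
    apply hιinj
    rw [map_zero]
    apply h0
    intro i
    have h1 : polyMap θ' y = 0 := funext hy
    have h2 := hιθ' y
    rw [h1, map_zero] at h2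
    exact (congrFun h2 i).symm
  have hzero : ∀ y, y ∈ zeroSet θ' ↔ ι y ∈ zeroSet θ := by
    intro y
    have h1 : y ∈ zeroSet θ' ↔ polyMap θ' y = y := by
      constructor
      · intro h
        funext a
        have := h a
        rw [map_sub, eval_X, sub_eq_zero] at this
        exact this
      · intro h a
        rw [map_sub, eval_X, sub_eq_zero]
        exact congrFun h a
    have h2 : ι y ∈ zeroSet θ ↔ polyMap θ (ι y) = ι y := by
      constructor
      · intro h
        funext a
        have := h a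
        rw [map_sub, eval_X, sub_eq_zero] at this
        exact this
      · intro h a
        rw [map_sub, eval_X, sub_eq_zero]
        exact congrFun h a
    rw [h1, h2, ← hιθ']
    exact hιinj.eq_iff.symm
  have hnd' : ∀ y ∈ zeroSet θ', ∀ z : Fin (Module.finrank ℂ U) → ℂ,
      (∀ a, ∑ b, eval y (pderiv b (θ' a)) * z b = z a) → z = 0 := by
    intro y hy z hz
    apply hιinj
    rw [map_zero]
    apply hnd (ι y) ((hzero y).mp hy)
    intro i
    have h1 : ∑ b, eval y (pderiv b (S (θ i))) * z b = ι z i := by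
      rw [hid i, hL]
      simp only [map_sum, pderiv_C_mul, map_mul, eval_C, Finset.sum_mul]
      rw [Finset.sum_comm]
      refine Finset.sum_congr rfl fun a _ => ?_
      rw [← hz a, Finset.mul_sum]
      exact Finset.sum_congr rfl fun b _ => by ring
    rw [← h1]
    have h2 : ∀ b, eval y (pderiv b (S (θ i))) * z b =
        ∑ j, eval (ι y) (pderiv j (θ i)) * (L j b * z b) := by
      intro b
      rw [Bezout.pderiv_linear_subst L b (θ i), map_sum, Finset.sum_mul]
      refine Finset.sum_congr rfl fun j _ => ?_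
      rw [map_mul, eval_C, ← hS]
      ring
    rw [Finset.sum_congr rfl fun b _ => h2 b, Finset.sum_comm]
    refine Finset.sum_congr rfl fun j _ => ?_
    rw [hL, Finset.mul_sum]
  have himg : {v | v ∈ zeroSet θ ∧ v ∈ U} = ι '' zeroSet θ' := by
    ext v
    constructor
    · rintro ⟨hv, hvU⟩
      obtain ⟨y, rfl⟩ := hUι v hvU
      exact ⟨y, (hzero y).mpr hv, rfl⟩
    · rintro ⟨y, hy, rfl⟩
      exact ⟨(hzero y).mp hy, hιU y⟩
  rw [himg, Set.ncard_image_of_injective _ hιinj]
  exact ncard_zeroSet hD θ' hhom' h0' hnd'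

end Pool.Agent.Hhelper36.Park
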